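import Pool.Agent.Q117.BN.Set

/-!
# A minimal multiplicative idempotent without the patterns `{m, n, m + n, m 2^n}`

There are an idempotent `p` in the smallest ideal of `(βℕ, ·)` all of whose members are additively
central, and a set `A ∈ p`, such that there are no `m, n` with `m`, `m + n`, `m 2^n` in `A`; so the
answer to Q1 is no.

The set.  Let `v₂, v₃` be the valuations and `log` the integer part of the binary logarithm.
`A` consists of all even `y` such that, with `k = log v₂(y)`: `log v₃(y) = k`, `v₂(y) ≤ 2^k + v₂(k)`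
and `v₂(k) = v₂(log log y)`.  If `m` and `m 2^n` are in `A` then `log (v₂(m) + n) = log v₂(m) = k` by
the first condition (the value `v₃` is the same), so `n ≤ v₂(k)` by the second.  Then `n` is much
smaller than `2^{v₂(m)}`, so `v₂(m + n) = v₂(n)`, `log (m + n) = log m`, and the third condition for `m`
and for `m + n` gives `v₂(k) = v₂(log v₂(n)) < n`, a contradiction.

The ultrafilter.  For each `N` the set of all `y` with `x y ∈ A` for all `x ≤ N` contains
`{y : v₂(y) = v₃(y) = 2^k, log y = 2^l, v₂(k) = v₂(l) = N + 2}`, which is additively central: `log y`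
depends on the large summand and the valuations on the small one, so one finds a minimal left ideal
for the first and a closed subsemigroup in it for the second condition.  A limit `r` of such additive
idempotents has `x⁻¹ A ∈ r` for all `x`; the dilations of additive minimal idempotents are
additive minimal idempotents, so every idempotent `p` in a minimal left ideal of `βℕ · r` will do.
-/

namespace Pool.Agent.Results.MP_d04c84_co.NoPattern

attribute [local instance] Ultrafilter.mul Ultrafilter.add Ultrafilter.semigroup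
  Ultrafilter.addSemigroup

/-- The smallest ideal `K(S)` of the semigroup `S` with operation `op`: the intersection of all
two-sided ideals (nonempty sets `I` with `op s x, op x s ∈ I` for `x ∈ I` and all `s`). -/
def K {S : Type*} (op : S → S → S) : Set S :=
  ⋂₀ {I : Set S | I.Nonempty ∧ ∀ s : S, ∀ x ∈ I, op s x ∈ I ∧ op x s ∈ I}

/-- The two operations of Mathlib on ultrafilters on the positive integers are the usual ones. -/
theorem mem_add_iff (p q : Ultrafilter ℕ+) (A : Set ℕ+) :
    A ∈ p + q ↔ {x : ℕ+ | {y : ℕ+ | x + y ∈ A} ∈ q} ∈ p :=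
  Pool.Agent.Q117.BN.mem_add

theorem mem_mul_iff (p q : Ultrafilter ℕ+) (A : Set ℕ+) :
    A ∈ p * q ↔ {x : ℕ+ | {y : ℕ+ | x * y ∈ A} ∈ q} ∈ p :=
  Pool.Agent.Q117.BN.mem_mul'

/-- `A` is additively central: it is a member of an idempotent in the smallest ideal of
`(βℕ, +)`. -/
def AdditivelyCentral (A : Set ℕ+) : Prop :=
  ∃ u : Ultrafilter ℕ+, u ∈ K (fun a b : Ultrafilter ℕ+ => a + b) ∧ u + u = u ∧ A ∈ u

/-- There are a minimal multiplicative idempotent `p`, all of whose members are additively central,
and `A ∈ p` such that no `m, n` have `m`, `m + n` and `m 2 ^ n` all in `A`. -/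
theorem result : ∃ p : Ultrafilter ℕ+, p ∈ K (fun a b : Ultrafilter ℕ+ => a * b) ∧ p * p = p ∧
    (∀ B ∈ p, AdditivelyCentral B) ∧
    ∃ A ∈ p, ∀ m n : ℕ+, ¬ (m ∈ A ∧ m + n ∈ A ∧ m * 2 ^ (n : ℕ) ∈ A) := by
  obtain ⟨p, h1, h2, h3, h4⟩ := Pool.Agent.Q117.BN.exists_p Pool.Agent.Q117.BN.AA
    Pool.Agent.Q117.BN.exists_eN
  exact ⟨p, h1, h2, h3, Pool.Agent.Q117.BN.AA, h4, fun m n h =>
    Pool.Agent.Q117.BN.no_pattern m n h.1 h.2.1 h.2.2⟩

end Pool.Agent.Results.MP_d04c84_co.NoPattern
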